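import Pool.Agent.H.MP_66ab92_lc.A

set_option autoImplicit false
open Cardinal Ordinal Set Pool.Agent.H.MP_66ab92_lc

namespace Pool.Agent.Results.MP_66ab92_lc.Plus

theorem result :
    ∃ I : Set (Set (ℕ → Bool)), BorelSigmaIdeal I ∧ (∀ x, {x} ∈ I) ∧ Set.univ ∉ I ∧
      IsLeast {γ | ∃ J, Chain SigmaIdeal I γ J} ω₁ ∧
      ¬ ∃ γ J, Chain SigmaIdeal I γ J ∧ ∀ x, {x} ∈ J 0 := by
  have : Uncountable (ℕ → Bool) := by
    rw [← aleph0_lt_mk_iff]
    simpa using aleph0_lt_continuum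
  refine ⟨{A | A.Countable}, ⟨⟨countable_empty, fun A hA B hB => hA.mono hB,
      fun f hf => countable_iUnion hf⟩, fun A hA => ⟨A, hA, subset_rfl, ?_⟩⟩,
    countable_singleton, not_countable_univ, ⟨ctbl, fun γ ⟨J, hJ⟩ => not_lt.1 fun h => ?_⟩, ?_⟩
  · let := borel (ℕ → Bool)
    have : BorelSpace (ℕ → Bool) := ⟨rfl⟩
    exact Countable.measurableSet hA
  · refine low ⟨hJ.1, fun a h => (hJ.2.1 a h).2.1, hJ.2.2⟩ fun f hf => ?_
    have : Countable (Iio γ) := by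
      rw [← mk_le_aleph0_iff, Cardinal.mk_Iio_ordinal]
      rw [← ord_aleph, lt_ord, ← succ_aleph0, Order.lt_succ_iff] at h
      exact Cardinal.lift_le_aleph0.2 h
    exact countable_iUnion hf
  · rintro ⟨γ, J, ⟨h1, h2, h3, h4⟩, h5⟩
    have h0 : (0 : Ordinal) < γ := h1.bot_lt
    obtain ⟨A, a1, a2⟩ := exists_of_ssubset (h4 0 _ (Order.lt_succ 0) (h1.succ_lt h0))
    have hA : A ∈ {A : Set (ℕ → Bool) | A.Countable} := by
      rw [h3]
      exact mem_iUnion₂.2 ⟨_, h1.succ_lt h0, a1⟩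
    have := un (h2 0 h0) (S := (fun x => {x}) '' A) (image_subset_iff.2 fun x _ => h5 x)
      (Countable.image hA _)
    rw [sUnion_image, biUnion_of_singleton] at this
    exact a2 this

end Pool.Agent.Results.MP_66ab92_lc.Plus
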