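import Pool.Agent.H.MP_66ab92_lc.A

set_option autoImplicit false
open Pool.Agent.H.MP_66ab92_lc

namespace Pool.Agent.Results.MP_66ab92_lc.Star

theorem result (X : Type) (I : Set (Set X)) (h1 : SigmaIdeal I) (h2 : ⋃₀ I ∉ I) :
    IsLeast {γ | ∃ J, Chain Down I γ J} (add I).ord :=
  ⟨star h1 h2, fun _ ⟨_, hJ⟩ => not_lt.1 fun h => low hJ (small h)⟩

end Pool.Agent.Results.MP_66ab92_lc.Star
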